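import Pool.Agent.Y6.F.Stm

/-! The initial data (port of Y510/EM/Datm to the new lengths). -/

open Set Filter Topology
open scoped ComplexConjugate

set_option autoImplicit false

namespace Pool.Agent.Y949.EF.Datm

open Pool.Agent.Y6.F
open Pool.Agent.Y6.M (Dat MDat Md br εc x0)

lemma al_two (n : ℕ) : 2 ≤ al n := by
  induction n with
  | zero =>
    have h : (10 : ℕ) ≤ 10 ^ 100 := Nat.le_self_pow (by norm_num) 10
    exact le_trans (by norm_num) h
  | succ n ih =>
    exact ih.trans (Nat.le_self_pow (by omega) (al n))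

lemma aM_two (n : ℕ) : 2 ≤ αM n := by
  unfold αM
  exact_mod_cast al_two n

lemma x0_nonneg (n : ℕ) : 0 ≤ x0 αM n := by
  have h := aM_two n
  cases n with
  | zero => simp only [x0]; norm_num
  | succ n =>
    simp only [x0, εc]
    exact inv_nonneg.2 (pow_nonneg (by linarith) _)

lemma x0_le (n : ℕ) : x0 αM n ≤ (1 / 2) ^ (n + 1) := by
  cases n with
  | zero => simp only [x0]; norm_num
  | succ n =>
    simp only [x0, εc]
    have h := aM_two (n + 1)
    rw [← inv_pow]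
    have h1 : (αM (n + 1))⁻¹ ≤ 1 / 2 := by
      rw [one_div]
      exact inv_anti₀ (by norm_num) h
    exact pow_le_pow_left₀ (inv_nonneg.2 (by linarith)) h1 _

lemma x0_sq (n : ℕ) : x0 αM n ^ 2 ≤ 1 / 4 * (1 / 4) ^ n := by
  have h := pow_le_pow_left₀ (x0_nonneg n) (x0_le n) 2
  refine h.trans (le_of_eq ?_)
  rw [← pow_mul, show (1 / 4 : ℝ) = (1 / 2) ^ 2 by norm_num, ← pow_mul, ← pow_add]
  congr 1
  ring

lemma x0_sum : Summable (fun n => x0 αM n ^ 2) ∧ ∑' n, x0 αM n ^ 2 ≤ 1 / 3 := by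
  have hg : HasSum (fun n : ℕ => 1 / 4 * (1 / 4 : ℝ) ^ n) (1 / 4 * (1 - 1 / 4)⁻¹) :=
    (hasSum_geometric_of_lt_one (by norm_num) (by norm_num)).mul_left _
  have hs : Summable (fun n => x0 αM n ^ 2) :=
    Summable.of_nonneg_of_le (fun n => sq_nonneg _) x0_sq hg.summable
  refine ⟨hs, ?_⟩
  have h := hs.tsum_le_tsum x0_sq hg.summable
  rw [hg.tsum_eq] at h
  refine h.trans (le_of_eq ?_)
  norm_num

theorem t_DATM : Pool.Agent.Y6.F.S_DATM := by
  intro hLV
  obtain ⟨_, hσ, _, _, hbr, _, _, hX, _, hk, _⟩ := hLV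
  have hXne : ∀ n m, Xm n ≠ br (Xm m) := by
    intro n m h
    exact hk n m (congrArg (fun i : Md => i.1.1) h)
  have hbrinj : ∀ i j : Md, br i = br j → i = j := by
    intro i j h
    rw [← (hbr i).1, h, (hbr j).1]
  have hv : ∀ (i : Md) (n : ℕ), (i = Xm n ∨ i = br (Xm n)) → vM i = ((x0 αM n : ℝ) : ℂ) := by
    intro i n hi
    classical
    have hex : ∃ n, i = Xm n ∨ i = br (Xm n) := ⟨n, hi⟩
    have hspec := Nat.find_spec hex
    have hn : Nat.find hex = n := by
      rcases hi with hi | hi <;> rcases hspec with hs | hs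
      · exact hX (hs.symm.trans hi)
      · exact absurd (hi.symm.trans hs) (hXne _ _)
      · exact absurd (hs.symm.trans hi) (hXne _ _)
      · exact hX (hbrinj _ _ (hs.symm.trans hi))
    unfold vM
    rw [dif_pos hex]
    congr 3
  have hv0 : ∀ i : Md, (¬ ∃ n, i = Xm n ∨ i = br (Xm n)) → vM i = 0 := by
    intro i hi
    unfold vM
    rw [dif_neg hi]
  set e : ℕ ⊕ ℕ → Md := Sum.elim Xm (fun n => br (Xm n)) with he
  have hinj : Function.Injective e := by
    rintro (a | a) (b | b) h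
    · exact congrArg Sum.inl (hX h)
    · exact absurd h (hXne _ _)
    · exact absurd h.symm (hXne _ _)
    · exact congrArg Sum.inr (hX (hbrinj _ _ h))
  have hout : ∀ i ∉ Set.range e, ‖vM i‖ ^ 2 = 0 := by
    intro i hi
    rw [hv0 i, norm_zero]
    · norm_num
    · rintro ⟨n, hn | hn⟩
      · exact hi ⟨Sum.inl n, hn.symm⟩
      · exact hi ⟨Sum.inr n, hn.symm⟩
  have hsum : HasSum (fun i : Md => ‖vM i‖ ^ 2) ((∑' n, x0 αM n ^ 2) + ∑' n, x0 αM n ^ 2) := by
    rw [← hinj.hasSum_iff hout]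
    refine HasSum.sum ?_ ?_
    · have h1 : ((fun i : Md => ‖vM i‖ ^ 2) ∘ e) ∘ Sum.inl = fun n => x0 αM n ^ 2 := by
        funext n
        have h2 : vM (e (Sum.inl n)) = ((x0 αM n : ℝ) : ℂ) := hv _ n (Or.inl rfl)
        simp only [Function.comp_apply, h2, Complex.norm_real, Real.norm_eq_abs, sq_abs]
      rw [h1]
      exact x0_sum.1.hasSum
    · have h1 : ((fun i : Md => ‖vM i‖ ^ 2) ∘ e) ∘ Sum.inr = fun n => x0 αM n ^ 2 := by
        funext n
        have h2 : vM (e (Sum.inr n)) = ((x0 αM n : ℝ) : ℂ) := hv _ n (Or.inr rfl)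
        simp only [Function.comp_apply, h2, Complex.norm_real, Real.norm_eq_abs, sq_abs]
      rw [h1]
      exact x0_sum.1.hasSum
  refine ⟨⟨?_, ?_, hsum.summable, ?_⟩, ⟨?_, ?_⟩⟩
  · intro i
    by_cases hi : ∃ n, i = Xm n ∨ i = br (Xm n)
    · obtain ⟨n, hn⟩ := hi
      have h1 : br i = Xm n ∨ br i = br (Xm n) := by
        rcases hn with hn | hn
        · right; rw [hn]
        · left; rw [hn, (hbr _).1]
      rw [hv i n hn, hv (br i) n h1, Complex.conj_ofReal]
    · have h1 : ¬ ∃ n, br i = Xm n ∨ br i = br (Xm n) := by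
        rintro ⟨n, hn | hn⟩
        · exact hi ⟨n, Or.inr (by rw [← hn, (hbr _).1])⟩
        · exact hi ⟨n, Or.inl (hbrinj _ _ hn)⟩
      rw [hv0 i hi, hv0 _ h1, map_zero]
  · intro i hi
    refine hv0 i ?_
    rintro ⟨n, hn | hn⟩
    · exact hi (by rw [hn]; exact (hσ n).1)
    · exact hi (by rw [hn]; exact (hσ n).2.1)
  · rw [hsum.tsum_eq]
    linarith [x0_sum.2]
  · intro n
    exact hv _ n (Or.inl rfl)
  · intro n
    refine hv0 _ ?_
    rintro ⟨m, hm | hm⟩
    · exact Bool.false_ne_true (congrArg Prod.snd hm)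
    · exact Bool.false_ne_true (congrArg Prod.snd hm)

end Pool.Agent.Y949.EF.Datm
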